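import Pool.Agent.H221R2.FB_VdcGen

/-! # Exponential sums with square roots along progressions (van der Corput) -/

set_option autoImplicit false

namespace Pool.Agent.L0h69.FM

open Finset
open Pool.Agent.H469R2.NK (e norm_e e_add)

/-- coefficients of the derivatives of the square root -/
noncomputable def cf : ℕ → ℝ
  | 0 => 1
  | m + 1 => cf m * (1 / 2 - m)

theorem cf_bounds (m : ℕ) (hm : 1 ≤ m) :
    (1 / 2 : ℝ) ^ m ≤ (-1) ^ (m + 1) * cf m ∧ (-1) ^ (m + 1) * cf m ≤ (m.factorial : ℝ) := by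
  induction m, hm using Nat.le_induction with
  | base => norm_num [cf]
  | succ m hm ih =>
    obtain ⟨h1, h2⟩ := ih
    have hmR : (1 : ℝ) ≤ m := by exact_mod_cast hm
    have h3 : (-1 : ℝ) ^ (m + 1 + 1) * cf (m + 1) = ((-1) ^ (m + 1) * cf m) * (m - 1 / 2) := by
      rw [cf, pow_succ]; ring
    rw [h3]
    have h4 : (0 : ℝ) < (1 / 2) ^ m := by positivity
    constructor
    · rw [pow_succ]
      exact mul_le_mul h1 (by linarith) (by norm_num) (by linarith)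
    · rw [Nat.factorial_succ]
      push_cast
      calc ((-1 : ℝ) ^ (m + 1) * cf m) * (m - 1 / 2) ≤ m.factorial * (m + 1) :=
            mul_le_mul h2 (by linarith) (by linarith) (by positivity)
        _ = _ := by ring

/-- the normalised square root and its derivatives -/
noncomputable def ph (J : ℝ) (m : ℕ) (t : ℝ) : ℝ := J ^ (-(1 / 2) : ℝ) * (cf m * t ^ ((1 / 2 : ℝ) - m))

theorem ph_deriv (J : ℝ) (m : ℕ) (t : ℝ) (ht : 0 < t) : HasDerivAt (ph J m) (ph J (m + 1) t) t := by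
  have h := ((Real.hasDerivAt_rpow_const (x := t) (p := (1 / 2 : ℝ) - m)
    (Or.inl ht.ne')).const_mul (cf m)).const_mul (J ^ (-(1 / 2) : ℝ))
  have h2 : ph J (m + 1) t = J ^ (-(1 / 2) : ℝ) *
      (cf m * (((1 / 2 : ℝ) - m) * t ^ ((1 / 2 : ℝ) - m - 1))) := by
    have e1 : (1 / 2 : ℝ) - ((m + 1 : ℕ) : ℝ) = 1 / 2 - m - 1 := by push_cast; ring
    rw [ph, cf, e1]; ring
  rw [h2]
  exact h

theorem ph_bounds (T : ℕ) (J : ℝ) (hJ : 0 < J) (m : ℕ) (hm : 1 ≤ m) (hmT : m ≤ T) (t : ℝ)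
    (ht : t ∈ Set.Icc J (3 * J)) :
    (1 / 6 : ℝ) ^ T ≤ (-1) ^ (m + 1) * ph J m t * J ^ m ∧
      (-1) ^ (m + 1) * ph J m t * J ^ m ≤ (T.factorial : ℝ) := by
  obtain ⟨ht1, ht2⟩ := ht
  have ht0 : 0 < t := by linarith
  obtain ⟨h1, h2⟩ := cf_bounds m hm
  have hmR : (1 : ℝ) ≤ m := by exact_mod_cast hm
  have hmTR : (m : ℝ) ≤ T := by exact_mod_cast hmT
  set w : ℝ := (J / t) ^ ((m : ℝ) - 1 / 2) with hw
  have e1 : (-1) ^ (m + 1) * ph J m t * J ^ m = ((-1) ^ (m + 1) * cf m) * w := by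
    have e2 : w = J ^ (-(1 / 2) : ℝ) * J ^ m * t ^ ((1 / 2 : ℝ) - m) := by
      rw [hw, Real.div_rpow hJ.le ht0.le, div_eq_mul_inv, ← Real.rpow_neg ht0.le]
      congr 1
      · rw [← Real.rpow_natCast, ← Real.rpow_add hJ]
        congr 1; ring
      · congr 1; ring
    rw [e2, ph]; ring
  have hJt : J / t ≤ 1 := by rw [div_le_one ht0]; exact ht1
  have hJt3 : 1 / 3 ≤ J / t := by
    rw [div_le_div_iff₀ (by norm_num) ht0]; linarith
  have hw1 : w ≤ 1 := Real.rpow_le_one (by positivity) hJt (by linarith)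
  have hw0 : (1 / 3 : ℝ) ^ T ≤ w := by
    calc (1 / 3 : ℝ) ^ T = (1 / 3 : ℝ) ^ (T : ℝ) := by rw [Real.rpow_natCast]
      _ ≤ (1 / 3 : ℝ) ^ ((m : ℝ) - 1 / 2) :=
        Real.rpow_le_rpow_of_exponent_ge (by norm_num) (by norm_num) (by linarith)
      _ ≤ w := Real.rpow_le_rpow (by norm_num) hJt3 (by linarith)
  have hcl : (1 / 2 : ℝ) ^ T ≤ (-1) ^ (m + 1) * cf m :=
    (pow_le_pow_of_le_one (by norm_num) (by norm_num) hmT).trans h1
  have hcu : (-1) ^ (m + 1) * cf m ≤ (T.factorial : ℝ) :=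
    h2.trans (by exact_mod_cast Nat.factorial_le hmT)
  have h3 : (0 : ℝ) < (1 / 3) ^ T := by positivity
  have h4 : (0 : ℝ) < (1 / 2) ^ T := by positivity
  rw [e1]
  constructor
  · have : (1 / 6 : ℝ) ^ T = (1 / 2) ^ T * (1 / 3) ^ T := by rw [← mul_pow]; norm_num
    rw [this]
    exact mul_le_mul hcl hw0 h3.le (h4.le.trans hcl)
  · calc (-1) ^ (m + 1) * cf m * w ≤ T.factorial * 1 :=
          mul_le_mul hcu hw1 (h3.le.trans hw0) (by positivity)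
      _ = _ := mul_one _

theorem exp_sqrt (M : ℕ) : ∃ η : ℝ, 0 < η ∧ η ≤ 1 ∧ ∃ C : ℝ, 0 < C ∧
    ∀ (J L : ℕ) (u ξ : ℝ), 1 ≤ J → (J : ℝ) ≤ u → L ≤ J → u + L ≤ 3 * J →
    1 ≤ |ξ| → |ξ| ≤ (J : ℝ) ^ M →
    ‖∑ n ∈ range L, e (ξ * ((J : ℝ) ^ (-(1 / 2) : ℝ) * √(u + n)))‖ ≤
      C * ((J : ℝ) ^ (1 - η) + J / |ξ|) := by
  obtain ⟨η, h0, h1, C, hC, h⟩ := Pool.Agent.H221R2.FB.vdc_gen M ((1 / 6) ^ (M + 4))
    ((M + 4).factorial) (by positivity)
  refine ⟨η, h0, h1, C, hC, fun J L u ξ hJ hu hL huL hx1 hx2 => ?_⟩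
  have hJ0 : (0 : ℝ) < J := by exact_mod_cast hJ
  have h2 := h J L u ξ (ph J) hJ hu hL huL
    (fun m _ t ht => ph_deriv J m t (hJ0.trans_le ht.1))
    (fun m hm1 hm2 t ht => ph_bounds (M + 4) J hJ0 m hm1 hm2 t ht) hx1 hx2
  refine le_trans (le_of_eq ?_) h2
  congr 1
  refine sum_congr rfl fun n _ => ?_
  congr 1
  rw [ph, cf, Real.sqrt_eq_rpow]
  norm_num

theorem prog_bound (A : ℕ) : ∃ θ : ℝ, 0 < θ ∧ θ < 1 ∧ ∀ (K : ℕ) (δ : ℝ), 0 < δ →
    ∃ N : ℕ, ∀ a q L m : ℕ, 1 ≤ q → N * q ≤ a → L * q ≤ a → ((a : ℝ) / q) ^ θ ≤ L →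
    (q : ℝ) ≤ ((a : ℝ) / q) ^ A → (m : ℝ) ≤ ((a : ℝ) / q) ^ A →
    ∀ h : ℤ, h ≠ 0 → |h| ≤ K →
    ‖∑ n ∈ range L, e (h * ((m + 1 / 2) * √((a : ℝ) + q * n)))‖ ≤ δ * L := by
  obtain ⟨η, hη0, hη1, C, hC, hexp⟩ := exp_sqrt (4 * A + 3)
  obtain ⟨η', hη'⟩ : ∃ η' : ℝ, η' = min η (1 / 2) := ⟨_, rfl⟩
  have h0 : 0 < η' := by rw [hη']; exact lt_min hη0 (by norm_num)
  have h1 : η' ≤ η := by rw [hη']; exact min_le_left _ _
  have h2 : η' ≤ 1 / 2 := by rw [hη']; exact min_le_right _ _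
  refine ⟨1 - η' / 2, by linarith, by linarith, fun K δ hδ => ?_⟩
  refine ⟨max (max 4 K) ⌈(3 * C / δ) ^ (2 / η')⌉₊, ?_⟩
  intro a q L m hq hNa hLa hL hqA hmA h hh0 hhK
  have hq0 : 0 < q := hq
  have hqR : (1 : ℝ) ≤ q := by exact_mod_cast hq
  obtain ⟨J, hJ⟩ : ∃ J : ℕ, J = a / q := ⟨_, rfl⟩
  have hNJ : max (max 4 K) ⌈(3 * C / δ) ^ (2 / η')⌉₊ ≤ J := by
    rw [hJ]; exact (Nat.le_div_iff_mul_le hq0).2 hNa
  have hLJ : L ≤ J := by rw [hJ]; exact (Nat.le_div_iff_mul_le hq0).2 hLa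
  have hJ4 : 4 ≤ J := ((le_max_left _ _).trans (le_max_left _ _)).trans hNJ
  have hKJ : K ≤ J := ((le_max_right _ _).trans (le_max_left _ _)).trans hNJ
  have hCJ : (3 * C / δ) ^ (2 / η') ≤ J :=
    (Nat.le_ceil _).trans (by exact_mod_cast (le_max_right _ _).trans hNJ)
  have hJ4R : (4 : ℝ) ≤ J := by exact_mod_cast hJ4
  have hJ0 : (0 : ℝ) < J := by linarith
  obtain ⟨u, hu⟩ : ∃ u : ℝ, u = (a : ℝ) / q := ⟨_, rfl⟩
  rw [← hu] at hL hqA hmA
  have hJu : (J : ℝ) ≤ u := by rw [hJ, hu]; exact Nat.cast_div_le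
  have huJ : u < J + 1 := by
    rw [hu, div_lt_iff₀ (by linarith)]
    have := Nat.lt_mul_div_succ a hq0
    rw [← hJ] at this
    have h3 : (a : ℝ) < q * (J + 1) := by exact_mod_cast this
    linarith
  have hu0 : 0 < u := by linarith
  have hLJR : (L : ℝ) ≤ J := by exact_mod_cast hLJ
  have huA1 : (1 : ℝ) ≤ u ^ A := one_le_pow₀ (by linarith)
  obtain ⟨ξ, hξ⟩ : ∃ ξ : ℝ, ξ = h * ((m + 1 / 2) * (√q * √J)) := ⟨_, rfl⟩
  have hsJ : (2 : ℝ) ≤ √J := by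
    apply Real.le_sqrt_of_sq_le; linarith
  have hsJJ : √(J : ℝ) * √J = J := Real.mul_self_sqrt hJ0.le
  have hsq : (1 : ℝ) ≤ √q := by
    apply Real.le_sqrt_of_sq_le; linarith
  have hsqq : √(q : ℝ) ≤ q := by
    have := Real.mul_self_sqrt (show (0 : ℝ) ≤ q by linarith)
    nlinarith
  have hm0 : (0 : ℝ) ≤ m := Nat.cast_nonneg m
  have habs : |ξ| = |(h : ℝ)| * ((m + 1 / 2) * (√q * √J)) := by
    rw [hξ, abs_mul, abs_of_nonneg (show (0 : ℝ) ≤ (m + 1 / 2) * (√q * √J) by positivity)]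
  have hh1 : (1 : ℝ) ≤ |(h : ℝ)| := by
    have : (1 : ℤ) ≤ |h| := Int.one_le_abs hh0
    exact_mod_cast this
  have hhK' : |(h : ℝ)| ≤ J := by
    have : ((|h| : ℤ) : ℝ) ≤ ((K : ℤ) : ℝ) := by exact_mod_cast hhK
    rw [Int.cast_abs] at this
    refine this.trans ?_
    exact_mod_cast hKJ
  have hlow : √(J : ℝ) / 2 ≤ |ξ| := by
    rw [habs]
    calc √(J : ℝ) / 2 = 1 * ((1 / 2) * (1 * √J)) := by ring
      _ ≤ |(h : ℝ)| * ((m + 1 / 2) * (√q * √J)) := by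
        apply mul_le_mul hh1 _ (by positivity) (by positivity)
        apply mul_le_mul (by linarith) _ (by positivity) (by positivity)
        exact mul_le_mul_of_nonneg_right hsq (by positivity)
  have hx1 : 1 ≤ |ξ| := by linarith
  have huJ2 : u ≤ (J : ℝ) ^ 2 := by nlinarith
  have huAJ : u ^ A ≤ (J : ℝ) ^ (2 * A) := by
    rw [pow_mul]
    exact pow_le_pow_left₀ hu0.le huJ2 A
  have hx2 : |ξ| ≤ (J : ℝ) ^ (4 * A + 3) := by
    rw [habs]
    have hJA : (0 : ℝ) < (J : ℝ) ^ (2 * A) := by positivity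
    calc |(h : ℝ)| * ((m + 1 / 2) * (√q * √J)) ≤
        J * ((J * (J : ℝ) ^ (2 * A)) * ((J : ℝ) ^ (2 * A) * J)) := by
          apply mul_le_mul hhK' _ (by positivity) (by positivity)
          apply mul_le_mul _ _ (by positivity) (by positivity)
          · nlinarith
          · apply mul_le_mul (hsqq.trans (hqA.trans huAJ)) _ (by positivity) (by positivity)
            nlinarith
      _ = (J : ℝ) ^ (4 * A + 3) := by
        rw [show 4 * A + 3 = 1 + (1 + 2 * A + (2 * A + 1)) by ring]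
        rw [pow_add, pow_add, pow_add, pow_add, pow_one]
  have hmain := hexp J L u ξ (by omega) hJu hLJ (by linarith) hx1 hx2
  have hsum : ∑ n ∈ range L, e (h * ((m + 1 / 2) * √((a : ℝ) + q * n))) =
      ∑ n ∈ range L, e (ξ * ((J : ℝ) ^ (-(1 / 2) : ℝ) * √(u + n))) := by
    refine sum_congr rfl fun n _ => ?_
    congr 1
    have e1 : (a : ℝ) + q * n = q * (u + n) := by
      rw [hu]; field_simp
    have e2 : (J : ℝ) ^ (-(1 / 2) : ℝ) * √J = 1 := by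
      rw [Real.sqrt_eq_rpow, ← Real.rpow_add hJ0]
      norm_num
    rw [e1, Real.sqrt_mul (by linarith), hξ]
    calc (h : ℝ) * ((m + 1 / 2) * (√q * √(u + n))) =
        (h : ℝ) * ((m + 1 / 2) * (√q * √(u + n))) * 1 := by ring
      _ = (h : ℝ) * ((m + 1 / 2) * (√q * √(u + n))) * ((J : ℝ) ^ (-(1 / 2) : ℝ) * √J) := by rw [e2]
      _ = _ := by ring
  rw [hsum]
  refine hmain.trans ?_
  have hJ1 : (1 : ℝ) ≤ J := by linarith
  have b1 : (J : ℝ) ^ (1 - η) ≤ (J : ℝ) ^ (1 - η') :=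
    Real.rpow_le_rpow_of_exponent_le hJ1 (by linarith)
  have b2 : (J : ℝ) / |ξ| ≤ 2 * (J : ℝ) ^ (1 - η') := by
    have h3 : (J : ℝ) / |ξ| ≤ J / (√J / 2) :=
      div_le_div_of_nonneg_left hJ0.le (by positivity) hlow
    have h4 : (J : ℝ) / (√J / 2) = 2 * √J := by
      rw [div_div_eq_mul_div, div_eq_iff (by positivity)]
      linear_combination (-2) * hsJJ
    have h5 : √(J : ℝ) ≤ (J : ℝ) ^ (1 - η') := by
      rw [Real.sqrt_eq_rpow]
      exact Real.rpow_le_rpow_of_exponent_le hJ1 (by linarith)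
    rw [h4] at h3
    linarith
  have b3 : 3 * C / δ ≤ (J : ℝ) ^ (η' / 2) := by
    have h3 : ((3 * C / δ) ^ (2 / η')) ^ (η' / 2) ≤ (J : ℝ) ^ (η' / 2) :=
      Real.rpow_le_rpow (by positivity) hCJ (by positivity)
    rw [← Real.rpow_mul (by positivity)] at h3
    have h4 : 2 / η' * (η' / 2) = 1 := by field_simp
    rwa [h4, Real.rpow_one] at h3
  have b4 : (J : ℝ) ^ (1 - η' / 2) ≤ L := by
    refine le_trans ?_ hL
    exact Real.rpow_le_rpow hJ0.le hJu (by linarith)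
  have hP : (0 : ℝ) < (J : ℝ) ^ (1 - η') := by positivity
  calc C * ((J : ℝ) ^ (1 - η) + J / |ξ|) ≤ C * (3 * (J : ℝ) ^ (1 - η')) :=
        mul_le_mul_of_nonneg_left (by linarith) hC.le
    _ = (3 * C / δ) * (δ * (J : ℝ) ^ (1 - η')) := by field_simp
    _ ≤ (J : ℝ) ^ (η' / 2) * (δ * (J : ℝ) ^ (1 - η')) :=
        mul_le_mul_of_nonneg_right b3 (by positivity)
    _ = δ * (J : ℝ) ^ (1 - η' / 2) := by
        rw [mul_left_comm, ← Real.rpow_add hJ0]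
        congr 2; ring
    _ ≤ δ * L := mul_le_mul_of_nonneg_left b4 hδ.le

end Pool.Agent.L0h69.FM
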