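import Pool.Agent.H469R2.NK.KL

/-! # Counting with the Fejer kernel -/

set_option autoImplicit false

namespace Pool.Agent.L0h69.FM

open Finset
open Pool.Agent.H469R2.NK (e norm_e e_add conj_e)

/-- the kernel is large near integers -/
theorem kernel_large (K : ℕ) (hK : 1 ≤ K) (x : ℝ) (z : ℤ) (hx : |x - z| ≤ 1 / (8 * K)) :
    (K : ℝ) ^ 2 / 4 ≤ ‖∑ k ∈ range K, e (k * x)‖ ^ 2 := by
  have hK0 : (0 : ℝ) < K := by exact_mod_cast hK
  have h1 : ∀ k ∈ range K, (7 : ℝ) / 10 + 1 / 200 ≤ (e (k * x)).re := by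
    intro k hk
    have hkK : (k : ℝ) ≤ K := by exact_mod_cast (mem_range.1 hk).le
    have e1 : e (k * x) = e (k * (x - z)) := by
      unfold e
      rw [Complex.exp_eq_exp_iff_exists_int]
      refine ⟨k * z, ?_⟩
      push_cast
      ring
    rw [e1]
    have e2 : (e (k * (x - z))).re = Real.cos (2 * Real.pi * (k * (x - z))) := by
      unfold e
      rw [Complex.exp_ofReal_mul_I_re]
    rw [e2]
    have h2 : |k * (x - z)| ≤ 1 / 8 := by
      rw [abs_mul, Nat.abs_cast]
      calc (k : ℝ) * |x - z| ≤ K * (1 / (8 * K)) :=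
            mul_le_mul hkK hx (abs_nonneg _) hK0.le
        _ = 1 / 8 := by field_simp
    have h3 : |2 * Real.pi * (k * (x - z))| ≤ Real.pi / 4 := by
      rw [abs_mul, abs_of_pos (by positivity)]
      nlinarith [Real.pi_pos]
    rw [← Real.cos_abs]
    have h4 : Real.cos (Real.pi / 4) ≤ Real.cos |2 * Real.pi * (k * (x - z))| :=
      Real.cos_le_cos_of_nonneg_of_le_pi (abs_nonneg _) (by linarith [Real.pi_pos]) h3
    rw [Real.cos_pi_div_four] at h4
    have h5 : (1.41 : ℝ) ≤ √2 := by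
      apply Real.le_sqrt_of_sq_le; norm_num
    linarith
  have h6 : (K : ℝ) * (141 / 200) ≤ (∑ k ∈ range K, e (k * x)).re := by
    rw [Complex.re_sum]
    calc (K : ℝ) * (141 / 200) = ∑ k ∈ range K, (141 / 200 : ℝ) := by
          rw [sum_const, card_range, nsmul_eq_mul]
      _ ≤ _ := sum_le_sum fun k hk => by have := h1 k hk; linarith
  have h7 := (h6.trans (Complex.re_le_norm _))
  have h8 : (0 : ℝ) ≤ K * (141 / 200) := by positivity
  nlinarith

theorem conj_e' (x : ℝ) : (starRingEnd ℂ) (e x) = e (-x) := by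
  rw [conj_e]

/-- few terms are near integers if the exponential sums are small -/
theorem count_near (L K : ℕ) (hK : 1 ≤ K) (x : ℕ → ℝ) (B : ℝ)
    (hB : ∀ h : ℤ, h ≠ 0 → |h| ≤ K → ‖∑ n ∈ range L, e (h * x n)‖ ≤ B)
    (s : Finset ℕ) (hs : s ⊆ range L)
    (hx : ∀ n ∈ s, ∃ z : ℤ, |x n - z| ≤ 1 / (8 * K)) :
    (s.card : ℝ) ≤ 4 / K * L + 4 * B := by
  have hK0 : (0 : ℝ) < K := by exact_mod_cast hK
  have hB0 : 0 ≤ B := by
    refine le_trans (norm_nonneg _) (hB 1 one_ne_zero ?_)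
    simpa using (by exact_mod_cast hK : (1 : ℤ) ≤ K)
  -- lower bound
  have h1 : (s.card : ℝ) * ((K : ℝ) ^ 2 / 4) ≤
      ∑ n ∈ range L, ‖∑ k ∈ range K, e (k * x n)‖ ^ 2 := by
    calc (s.card : ℝ) * ((K : ℝ) ^ 2 / 4) = ∑ n ∈ s, ((K : ℝ) ^ 2 / 4) := by
          rw [sum_const, nsmul_eq_mul]
      _ ≤ ∑ n ∈ s, ‖∑ k ∈ range K, e (k * x n)‖ ^ 2 := by
          refine sum_le_sum fun n hn => ?_
          obtain ⟨z, hz⟩ := hx n hn
          exact kernel_large K hK _ z hz
      _ ≤ _ := sum_le_sum_of_subset_of_nonneg hs fun n _ _ => by positivity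
  -- expansion
  have h2 : ∀ n, ((‖∑ k ∈ range K, e (k * x n)‖ ^ 2 : ℝ) : ℂ) =
      ∑ k ∈ range K, ∑ l ∈ range K, e (((k : ℤ) - l : ℤ) * x n) := by
    intro n
    rw [Complex.ofReal_pow, ← Complex.mul_conj', map_sum, sum_mul_sum]
    refine sum_congr rfl fun k _ => sum_congr rfl fun l _ => ?_
    rw [conj_e', ← e_add]
    congr 1
    push_cast
    ring
  have h3 : ((∑ n ∈ range L, ‖∑ k ∈ range K, e (k * x n)‖ ^ 2 : ℝ) : ℂ) =
      ∑ k ∈ range K, ∑ l ∈ range K, ∑ n ∈ range L, e (((k : ℤ) - l : ℤ) * x n) := by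
    rw [Complex.ofReal_sum]
    rw [sum_congr rfl fun n _ => h2 n]
    rw [sum_comm]
    refine sum_congr rfl fun k _ => ?_
    rw [sum_comm]
  have h4 : (∑ n ∈ range L, ‖∑ k ∈ range K, e (k * x n)‖ ^ 2 : ℝ) ≤
      ∑ k ∈ range K, ∑ l ∈ range K, (if k = l then (L : ℝ) else B) := by
    have h5 : (∑ n ∈ range L, ‖∑ k ∈ range K, e (k * x n)‖ ^ 2 : ℝ) ≤
        ‖((∑ n ∈ range L, ‖∑ k ∈ range K, e (k * x n)‖ ^ 2 : ℝ) : ℂ)‖ := by
      rw [Complex.norm_real]
      exact le_abs_self _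
    refine h5.trans ?_
    rw [h3]
    refine (norm_sum_le _ _).trans (sum_le_sum fun k hk => ?_)
    refine (norm_sum_le _ _).trans (sum_le_sum fun l hl => ?_)
    rw [mem_range] at hk hl
    split_ifs with hkl
    · subst hkl
      refine (norm_sum_le _ _).trans ?_
      rw [sum_congr rfl fun n _ => norm_e _]
      simp
    · refine hB _ (by omega) ?_
      rw [abs_le]
      omega
  have h6 : ∑ k ∈ range K, ∑ l ∈ range K, (if k = l then (L : ℝ) else B) ≤ K * (L + K * B) := by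
    calc ∑ k ∈ range K, ∑ l ∈ range K, (if k = l then (L : ℝ) else B)
        ≤ ∑ k ∈ range K, ((L : ℝ) + K * B) := by
          refine sum_le_sum fun k hk => ?_
          calc ∑ l ∈ range K, (if k = l then (L : ℝ) else B)
              ≤ ∑ l ∈ range K, ((if k = l then (L : ℝ) else 0) + B) := by
                refine sum_le_sum fun l _ => ?_
                split_ifs <;> linarith
            _ = L + K * B := by
                rw [sum_add_distrib, sum_ite_eq, if_pos hk, sum_const, card_range, nsmul_eq_mul]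
      _ = K * (L + K * B) := by rw [sum_const, card_range, nsmul_eq_mul]
  have h7 := (h1.trans h4).trans h6
  have h8 : (s.card : ℝ) * K ≤ 4 * (L + K * B) := by
    have h9 : ((s.card : ℝ) * K) * K ≤ (4 * (L + K * B)) * K := by nlinarith
    exact le_of_mul_le_mul_right h9 hK0
  have h10 : (s.card : ℝ) ≤ 4 * (L + K * B) / K := by
    rw [le_div_iff₀ hK0]; exact h8
  refine h10.trans (le_of_eq ?_)
  field_simp

end Pool.Agent.L0h69.FM
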