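import Pool.Agent.Y961.JR.GenMain

/-! # Exponential sums of `(P(r) + 1/2) √r`, `P` a polynomial, over short intervals -/

set_option autoImplicit false

namespace Pool.Agent.L0h69.FM.Poly

open Polynomial Filter
open Pool.Agent.Y961.JR (Fam gg gg_zero gg_exp)
open Pool.Agent.H469R2.NK (e norm_e e_add)

/-- the exponents `j + 1/2`, `j ≤ d` -/
noncomputable def ex (d : ℕ) : Finset ℝ := (Finset.range (d + 1)).image (fun j : ℕ => (j : ℝ) + 1 / 2)

/-- the coefficients of `P + 1/2` -/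
noncomputable def co (P : ℝ[X]) (x : ℝ) : ℝ := P.coeff ⌊x⌋₊ + if ⌊x⌋₊ = 0 then 1 / 2 else 0

theorem floor_half (j : ℕ) : ⌊(j : ℝ) + 1 / 2⌋₊ = j := by
  rw [Nat.floor_eq_iff (by positivity)]
  constructor <;> linarith

theorem fam (P : ℝ[X]) (hP : 0 < P.leadingCoeff) :
    Fam (r := 1) (fun _ => ex P.natDegree) (fun _ => co P) (fun _ => (P.natDegree : ℝ) + 1 / 2) := by
  refine ⟨fun _ => ?_, fun _ => ?_, fun _ => ?_, fun _ => by positivity, fun _ => ?_,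
    fun i j _ => Subsingleton.elim i j⟩
  · exact Finset.mem_image.2 ⟨P.natDegree, Finset.mem_range.2 (Nat.lt_succ_self _), rfl⟩
  · intro x hx
    obtain ⟨j, hj, rfl⟩ := Finset.mem_image.1 hx
    have h1 : j ≤ P.natDegree := Nat.lt_succ_iff.1 (Finset.mem_range.1 hj)
    have h2 : (j : ℝ) ≤ P.natDegree := by exact_mod_cast h1
    linarith
  · show 0 < co P _
    rw [co, floor_half]
    have h1 : 0 < P.coeff P.natDegree := hP
    split_ifs <;> linarith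
  · intro m hm
    have h1 : (2 * P.natDegree + 1 : ℝ) = 2 * m := by linarith
    have h2 : (2 * P.natDegree + 1 : ℕ) = 2 * m := by exact_mod_cast h1
    omega

theorem value (P : ℝ[X]) (t : ℝ) (ht : 0 < t) :
    ∑ x ∈ ex P.natDegree, co P x * t ^ x = (P.eval t + 1 / 2) * √t := by
  rw [ex, Finset.sum_image (by intro i _ j _ hij; simpa using hij)]
  have h1 : ∀ j ∈ Finset.range (P.natDegree + 1), co P ((j : ℝ) + 1 / 2) * t ^ ((j : ℝ) + 1 / 2) =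
      (P.coeff j * t ^ j + if j = 0 then 1 / 2 else 0) * √t := by
    intro j _
    rw [co, floor_half, Real.rpow_add ht, Real.rpow_natCast, ← Real.sqrt_eq_rpow]
    split_ifs with h
    · subst h
      rw [pow_zero]
      ring
    · ring
  rw [Finset.sum_congr rfl h1, ← Finset.sum_mul, Finset.sum_add_distrib,
    ← Polynomial.eval_eq_sum_range, Finset.sum_ite_eq', if_pos (Finset.mem_range.2 (Nat.succ_pos _))]

theorem sums (P : ℝ[X]) (hP : 0 < P.leadingCoeff) : ∃ θ : ℝ, 0 < θ ∧ θ < 1 ∧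
    ∀ (K : ℕ) (δ : ℝ), 0 < δ → ∃ N : ℕ, ∀ R L : ℕ, N ≤ R → L ≤ R → (R : ℝ) ^ θ ≤ L →
    ∀ h : ℤ, h ≠ 0 → |h| ≤ K →
    ‖∑ n ∈ Finset.range L, e (h * ((P.eval ((R : ℝ) + n) + 1 / 2) * √((R : ℝ) + n)))‖ ≤ δ * L := by
  obtain ⟨η₀, hη₀, hη₀4, H⟩ := gg_exp (r := 1) le_rfl (fam P hP)
  refine ⟨1 - η₀, by linarith, by linarith, fun K δ hδ => ?_⟩
  have h1 := H η₀ η₀ hη₀ le_rfl le_rfl
  have h2 : ∀ᶠ M : ℝ in atTop, (K : ℝ) + 1 ≤ M ^ η₀ ∧ 1 / δ ≤ M ^ η₀ :=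
    ((tendsto_rpow_atTop hη₀).eventually_ge_atTop _).and
      ((tendsto_rpow_atTop hη₀).eventually_ge_atTop _)
  obtain ⟨Z, hZ⟩ := eventually_atTop.1 (h1.and (h2.and (eventually_ge_atTop (1 : ℝ))))
  refine ⟨⌈Z⌉₊, fun R L hR hLR hL h hh0 hhK => ?_⟩
  have hRZ : Z ≤ R := (Nat.le_ceil Z).trans (by exact_mod_cast hR)
  obtain ⟨hM, ⟨hK, hδM⟩, hR1⟩ := hZ R hRZ
  have hR0 : (0 : ℝ) < R := by linarith
  have hpos : 0 < (R : ℝ) ^ η₀ := by positivity
  have hK0 : (0 : ℝ) ≤ K := Nat.cast_nonneg K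
  have hhK' : |(h : ℝ)| ≤ K := by
    have h3 : ((|h| : ℤ) : ℝ) ≤ ((K : ℤ) : ℝ) := by exact_mod_cast hhK
    rwa [Int.cast_abs, Int.cast_natCast] at h3
  have hne : (fun _ : Fin 1 => h) ≠ 0 := by
    intro hc
    exact hh0 (congrFun hc 0)
  have hLR' : (L : ℝ) ≤ R := by exact_mod_cast hLR
  have h3 := hM (fun _ => h) hne (fun _ => by linarith) 1 le_rfl
    (by rw [Nat.cast_one]; linarith) R L L le_rfl (by push_cast; linarith) le_rfl (by
      have h4 : 0 ≤ (R : ℝ) ^ (1 - η₀) := by positivity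
      linarith)
  have h4 : ∀ n ∈ Finset.range L, e (gg (fun _ : Fin 1 => ex P.natDegree) (fun _ => co P) (fun _ => h) 0
      ((R : ℝ) + ((1 : ℕ) : ℝ) * n) / ((1 : ℕ) : ℝ)) =
      e (h * ((P.eval ((R : ℝ) + n) + 1 / 2) * √((R : ℝ) + n))) := by
    intro n _
    rw [Nat.cast_one, one_mul, div_one, gg_zero, Fin.sum_univ_one, value P _ (by positivity)]
  rw [Finset.sum_congr rfl h4] at h3
  refine h3.trans ?_
  have h5 : (R : ℝ) ^ (-η₀) ≤ δ := by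
    rw [Real.rpow_neg hR0.le]
    rw [one_div] at hδM
    exact inv_le_of_inv_le₀ hδ hδM
  calc (L : ℝ) * (R : ℝ) ^ (-η₀) ≤ L * δ := mul_le_mul_of_nonneg_left h5 (Nat.cast_nonneg L)
    _ = δ * L := mul_comm _ _

end Pool.Agent.L0h69.FM.Poly
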